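import Mathlib
import Pool.Agent.GRO.FIN
import Pool.Agent.GRO.DIS

/-!
The growth of the set of cyclic words in the orbit `Aut(F_k) · w`, for every `w ≠ 1`.
-/

set_option autoImplicit false

namespace Pool.Agent.Results.MP_1babb5_al.OrbitGrowth

open Pool.Agent.GRO

/-- For `k ≥ 3` the growth of the set of cyclic words in the orbit of `w ≠ 1` is the maximum of
`(2k-3)^(1/muC)` and of the numbers `(2r-1)^(1/sgm r)`, `1 ≤ r < k`. It is `2k-3` for primitive
elements, and at most `(2k-3)^(1/2)` for all others, with equality iff `muC = 2` or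
`sgm (k-1) = 2`. For `x_1^p ... x_k^p`, `p` an odd prime, `mu = p` and the growth is
`(2k-3)^(1/2)`. For `k = 2` the growth is `0` for the conjugates of powers of the commutator of the
generators and `1` for all other `w ≠ 1`. -/
theorem result :
    (∀ k : ℕ, 3 ≤ k → ∀ w : FreeGroup (Fin k), w ≠ 1 → ∀ x : Fin k,
      0 < muC x w ∧ (∀ r : ℕ, 1 ≤ r → r < k → 0 < sgm r w) ∧
      IsGreatest {z : ℝ | z = (2 * (k : ℝ) - 3) ^ (1 / (muC x w : ℝ)) ∨
        ∃ r : ℕ, 1 ≤ r ∧ r < k ∧ z = (2 * (r : ℝ) - 1) ^ (1 / (sgm r w : ℝ))}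
        (growth (cyclicWords w)) ∧
      (Prim w → growth (cyclicWords w) = 2 * (k : ℝ) - 3) ∧
      (¬ Prim w → growth (cyclicWords w) ≤ Real.sqrt (2 * (k : ℝ) - 3) ∧
        (growth (cyclicWords w) = Real.sqrt (2 * (k : ℝ) - 3) ↔
          muC x w = 2 ∨ sgm (k - 1) w = 2))) ∧
    (∀ k : ℕ, 3 ≤ k → ∀ p : ℕ, p.Prime → p ≠ 2 → ∀ w : FreeGroup (Fin k),
      w = ((List.finRange k).map fun i => FreeGroup.of i ^ p).prod →
      w ≠ 1 ∧ ¬ Prim w ∧ (∀ x : Fin k, mu x w = p) ∧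
        growth (cyclicWords w) = Real.sqrt (2 * (k : ℝ) - 3)) ∧
    (∀ w : FreeGroup (Fin 2), w ≠ 1 → ∀ x y : FreeGroup (Fin 2), x = FreeGroup.of 0 →
      y = FreeGroup.of 1 →
      ((∃ (m : ℤ) (c : FreeGroup (Fin 2)), w = c * (x * y * x⁻¹ * y⁻¹) ^ m * c⁻¹) →
        growth (cyclicWords w) = 0) ∧
      ((¬ ∃ (m : ℤ) (c : FreeGroup (Fin 2)), w = c * (x * y * x⁻¹ * y⁻¹) ^ m * c⁻¹) →
        growth (cyclicWords w) = 1)) := by
  refine ⟨?_, ?_, ?_⟩
  · intro k hk w hw x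
    refine ⟨(muC_mem hw x).1, fun r h1 h2 => (sgm_mem hw h1 h2).1, ?_, fun h => fin_prim hk h,
      fun h => fin_second hk hw h x⟩
    exact formula hk hw x
  · intro k hk p hp hp2 w hw
    exact dis k hk p hp hp2 w hw
  · intro w hw x y hx hy
    subst hx
    subst hy
    exact k2 hw

end Pool.Agent.Results.MP_1babb5_al.OrbitGrowth
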